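import Pool.Agent.X127.HY.Jl
import Pool.Agent.Results.MP_a28cf0_nt.JointLimitLaws

/-!
# A fast Maass form is sign balanced conditionally on slow ones (MP_a28cf0_nt)

`HH` is the open upper half plane, `Eig Ω t f` says that `f` is a smooth real solution of
`-y² (∂x² + ∂y²) f = (1/4 + t²) f` in `Ω`, `II w F = ∫ w F dx dy / y²`, and `IsJointLimit ψ f g ν`
says that `ν` is the weak limit, along a subsequence, of the joint laws of `f n` and the `g i n`
under `ψ dx dy / y²`; these are definitions of the file `JointLimitLaws` of this problem. `LocL2`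
(local boundedness in `L²`) and `Test` (nonnegative smooth functions with compact support in `Ω`)
are definitions of the file `AbsoluteContinuity` of MP_a52643_an. `slice ν B` is the measure
`A ↦ ν(A × B)`, defined in `Pool.Agent.Y139.JL`.
-/

set_option autoImplicit false
open MeasureTheory Filter Topology
open scoped ContDiff ENNReal NNReal

namespace Pool.Agent.Results.MP_a28cf0_nt.ConditionalSignBalance

noncomputable section

open Pool.Agent.Results.MP_a52643_an.AbsoluteContinuity (lapl LocL2 Test)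
open Pool.Agent.Results.MP_a28cf0_nt.JointLimitLaws (HH Eig II IsJointLimit)
open Pool.Agent.Y139.JL (slice)
open Pool.Agent.X127.HY (Fo Te Sol Lim)

/-- the hypotheses on the forms: `f n` has frequency `t n → ∞`, the `g i n` have frequencies
`s i n` with `s i n / t n → 0`; nothing is assumed about the frequencies `s i n` among themselves -/
structure SeparatedForms (Ω : Set ℂ) {k : ℕ} (t : ℕ → ℝ) (f : ℕ → ℂ → ℝ) (s : Fin k → ℕ → ℝ)
    (g : Fin k → ℕ → ℂ → ℝ) : Prop where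
  op : IsOpen Ω
  sub : Ω ⊆ HH
  high : Tendsto t atTop atTop
  sep : ∀ i, Tendsto (fun n => s i n / t n) atTop (𝓝 0)
  ef : ∀ n, Eig Ω (t n) (f n)
  eg : ∀ i n, Eig Ω (s i n) (g i n)
  lf : LocL2 Ω f
  lg : ∀ i, LocL2 Ω (g i)

lemma refl_conv {Φ : ℝ → ℝ} (h : ConvexOn ℝ Set.univ Φ) :
    ConvexOn ℝ Set.univ fun x => Φ (-x) := by
  refine ⟨convex_univ, fun x _ y _ p q hp hq hpq => ?_⟩
  have := h.2 (Set.mem_univ (-x)) (Set.mem_univ (-y)) hp hq hpq
  simp only [smul_eq_mul] at this ⊢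
  rw [show -(p * x + q * y) = p * -x + q * -y by ring]
  exact this

lemma toFo {Ω : Set ℂ} {k : ℕ} {t : ℕ → ℝ} {f : ℕ → ℂ → ℝ} {s : Fin k → ℕ → ℝ}
    {g : Fin k → ℕ → ℂ → ℝ} (H : SeparatedForms Ω t f s g) : Fo Ω t f s g :=
  ⟨H.op, H.sub, H.high, H.sep, fun n => ⟨(H.ef n).1, (H.ef n).2⟩,
    fun i n => ⟨(H.eg i n).1, (H.eg i n).2⟩, H.lf, H.lg⟩

lemma toTe {Ω : Set ℂ} {ψ : ℂ → ℝ} (h : Test Ω ψ) : Te Ω ψ :=
  ⟨h.1.continuous, h.2.1, h.2.2.1, h.2.2.2⟩

/-- **Conditional sign balance.** Let `f n` be an eigenfunction of high frequency and `g i n`,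
`i < k`, eigenfunctions of much lower frequencies. (1) For all nonnegative bounded Lipschitz `h`,
all convex `Φ ≥ 0` with at most linear growth and all `c < 2/5`,
`∫ ψ h(g) Φ(±c f) dμ ≤ ∫ ψ h(g) Φ(∓f) dμ + o(1)`. (2) For every limit `ν` of the joint laws, every
Borel set `B` of values of `(g_1, …, g_k)` and all convex `Φ ≥ 0`,
`∫_{ℝ×B} Φ(±(2/5) x) dν(x, y) ≤ ∫_{ℝ×B} Φ(∓x) dν(x, y)`. -/
theorem result (Ω : Set ℂ) (k : ℕ) (t : ℕ → ℝ) (f : ℕ → ℂ → ℝ)
    (s : Fin k → ℕ → ℝ) (g : Fin k → ℕ → ℂ → ℝ) (HF : SeparatedForms Ω t f s g) (ψ : ℂ → ℝ)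
    (hψ : Test Ω ψ) :
    (∀ (h : (Fin k → ℝ) → ℝ) (C : ℝ) (L : ℝ≥0), LipschitzWith L h → (∀ y, 0 ≤ h y) →
      (∀ y, h y ≤ C) → ∀ Φ : ℝ → ℝ, ConvexOn ℝ Set.univ Φ → (∀ x, 0 ≤ Φ x) →
      ∀ A B : ℝ, (∀ x, Φ x ≤ A + B * |x|) → ∀ c : ℝ, 0 ≤ c → c < 2 / 5 → ∀ ε : ℝ, 0 < ε →
        ∀ᶠ n in atTop,
          II ψ (fun z => h (fun i => g i n z) * Φ (c * f n z)) ≤
            II ψ (fun z => h (fun i => g i n z) * Φ (-f n z)) + ε ∧
          II ψ (fun z => h (fun i => g i n z) * Φ (-(c * f n z))) ≤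
            II ψ (fun z => h (fun i => g i n z) * Φ (f n z)) + ε) ∧
    ∀ ν : Measure (ℝ × (Fin k → ℝ)), IsFiniteMeasure ν → IsJointLimit ψ f g ν →
      ∀ B : Set (Fin k → ℝ), MeasurableSet B → ∀ Φ : ℝ → ℝ, ConvexOn ℝ Set.univ Φ →
      (∀ x, 0 ≤ Φ x) →
        ∫⁻ x, ENNReal.ofReal (Φ (2 / 5 * x)) ∂(slice ν B) ≤
          ∫⁻ x, ENNReal.ofReal (Φ (-x)) ∂(slice ν B) ∧
        ∫⁻ x, ENNReal.ofReal (Φ (-(2 / 5 * x))) ∂(slice ν B) ≤
          ∫⁻ x, ENNReal.ofReal (Φ x) ∂(slice ν B) := by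
  have hT := toTe hψ
  constructor
  · intro h C L hL h0 hC Φ cΦ Φ0 A B hAB c c0 c1 ε ε0
    have hAB' : ∀ {Ψ : ℝ → ℝ}, (∀ x, Ψ x ≤ A + B * |x|) → ∀ x, Ψ x ≤ |A| + |B| * |x| := by
      intro Ψ hΨ x
      have h1 := hΨ x
      have h2 := le_abs_self A
      have h3 : B * |x| ≤ |B| * |x| := mul_le_mul_of_nonneg_right (le_abs_self B) (abs_nonneg x)
      linarith
    have hL' : ∀ y y', (h y - h y') ^ 2 ≤ (L : ℝ) ^ 2 * ∑ i, (y i - y' i) ^ 2 := by
      intro y y'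
      have q1 := hL.dist_le_mul y y'
      rw [Real.dist_eq] at q1
      have q2 := Pool.Agent.X127.HY.pi_sq (y - y')
      calc (h y - h y') ^ 2 = |h y - h y'| ^ 2 := (sq_abs _).symm
        _ ≤ ((L : ℝ) * dist y y') ^ 2 := pow_le_pow_left₀ (abs_nonneg _) q1 2
        _ = (L : ℝ) ^ 2 * ‖y - y'‖ ^ 2 := by rw [dist_eq_norm]; ring
        _ ≤ _ := mul_le_mul_of_nonneg_left q2 (by positivity)
    have e1 := Pool.Agent.X127.HY.con2 (toFo HF) hT.c hT.k hT.t hT.p hL.continuous h0 hC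
      (by positivity) hL' cΦ Φ0 (abs_nonneg A) (abs_nonneg B) (hAB' hAB) c0 c1 ε0
    have e2 := Pool.Agent.X127.HY.con2 (toFo HF) hT.c hT.k hT.t hT.p hL.continuous h0 hC
      (by positivity) hL' (refl_conv cΦ) (fun x => Φ0 _) (abs_nonneg A) (abs_nonneg B)
      (hAB' (fun x => by have := hAB (-x); rwa [abs_neg] at this)) c0 c1 ε0
    filter_upwards [e1, e2] with n n1 n2
    refine ⟨n1, ?_⟩
    simp only [neg_neg] at n2
    exact n2
  · intro ν hν hlim B mB Φ cΦ Φ0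
    obtain ⟨σ, hσ, hl⟩ := hlim
    have HF' := toFo HF
    have HS : Fo Ω (fun n => t (σ n)) (fun n => f (σ n)) (fun i n => s i (σ n))
        (fun i n => g i (σ n)) := by
      refine ⟨HF'.op, HF'.sub, HF'.high.comp hσ.tendsto_atTop,
        fun i => (HF'.sep i).comp hσ.tendsto_atTop, fun n => HF'.ef _, fun i n => HF'.eg i _,
        fun K hK KΩ => ?_, fun i K hK KΩ => ?_⟩
      · obtain ⟨C, hC⟩ := HF'.lf K hK KΩ
        exact ⟨C, hσ.tendsto_atTop.eventually hC⟩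
      · obtain ⟨C, hC⟩ := HF'.lg i K hK KΩ
        exact ⟨C, hσ.tendsto_atTop.eventually hC⟩
    have hlim' : Lim ψ (fun n => f (σ n)) (fun i n => g i (σ n)) ν := fun F cF hF => hl F cF hF
    have main : ∀ Φ : ℝ → ℝ, ConvexOn ℝ Set.univ Φ → (∀ x, 0 ≤ Φ x) →
        ∫⁻ x, ENNReal.ofReal (Φ (2 / 5 * x)) ∂(slice ν B) ≤
          ∫⁻ x, ENNReal.ofReal (Φ (-x)) ∂(slice ν B) := by
      intro Φ cΦ Φ0
      have cc := Pool.Agent.X127.SW.conv_cont cΦ
      have h := Pool.Agent.X127.HY.con5 HS hT hlim' cΦ Φ0 mB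
      have m1 : Measurable fun x : ℝ => ENNReal.ofReal (Φ (2 / 5 * x)) :=
        (cc.comp (continuous_const.mul continuous_id)).measurable.ennreal_ofReal
      have m2 : Measurable fun x : ℝ => ENNReal.ofReal (Φ (-x)) :=
        (cc.comp continuous_neg).measurable.ennreal_ofReal
      unfold slice
      rw [lintegral_map m1 measurable_fst, lintegral_map m2 measurable_fst]
      exact h
    refine ⟨main Φ cΦ Φ0, ?_⟩
    have h := main _ (refl_conv cΦ) fun x => Φ0 _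
    simp only [neg_neg] at h
    exact h

end

end Pool.Agent.Results.MP_a28cf0_nt.ConditionalSignBalance
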