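import Pool.Agent.X127.SW.Vec

/-!
# The Bernstein–Szegő inequality in law for joint limit fields (MP_a28cf0_nt)

Let `(f_1, ..., f_I)` run over families of Maass forms whose spectral parameters tend to infinity
with ratios tending to `1`. After rescaling by the spectral parameter, the joint local limits are
stationary random fields `F = (F_1, ..., F_I)` on the plane with smooth samples, `ΔF_i + F_i = 0`
and `E F_i(0)² < ∞`, and the joint limit laws of the values are the laws of `F(0)`. The theorem is
about all such fields, in every dimension.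
-/

set_option autoImplicit false
open MeasureTheory Filter Topology
open scoped ContDiff ENNReal

namespace Pool.Agent.Results.MP_a28cf0_nt.JointBernsteinSzego

noncomputable section

/-- the Laplacian `∑ ∂_j²` of `ℝ^d` -/
def laplacian {d : ℕ} (f : EuclideanSpace ℝ (Fin d) → ℝ) (y : EuclideanSpace ℝ (Fin d)) : ℝ :=
  ∑ j, fderiv ℝ (fun z => fderiv ℝ f z (EuclideanSpace.single j 1)) y (EuclideanSpace.single j 1)

/-- `F` is a jointly stationary random field on `ℝ^d` with values in `ℝ^I`, with smooth samples,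
`ΔF_i + F_i = 0` and `E F_i(0)² < ∞` for all `i`. Stationary means: the shifted field has the same
law, in the product of copies of `ℝ^I` indexed by the points of `ℝ^d`. -/
structure IsJointStationaryWave {d I : ℕ} {S : Type*} [MeasurableSpace S] (P : Measure S)
    (F : S → EuclideanSpace ℝ (Fin d) → Fin I → ℝ) : Prop where
  prob : IsProbabilityMeasure P
  measurable : ∀ y, Measurable fun s => F s y
  smooth : ∀ s i, ContDiff ℝ ∞ fun y => F s y i
  eigen : ∀ s i y, laplacian (fun y => F s y i) y + F s y i = 0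
  stationary : ∀ x : EuclideanSpace ℝ (Fin d),
    P.map (fun s y => F s (y + x)) = P.map (fun s y => F s y)
  moment : ∀ i, Integrable (fun s => F s 0 i ^ 2) P

/-- the directional derivative of the `i`-th component at `0` -/
def der {d I : ℕ} (f : EuclideanSpace ℝ (Fin d) → Fin I → ℝ) (v : EuclideanSpace ℝ (Fin d))
    (i : Fin I) : ℝ := fderiv ℝ (fun y => f y i) 0 v

open Pool.Agent.X127.SW Pool.Agent.Y139.SW

/-- **The joint Bernstein–Szegő inequality in law.** For a jointly stationary wave
`F = (F_1, ..., F_I)` on `ℝ^d`, every unit vector `v`, every angle `α` and every even convex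
function `Φ ≥ 0` on `ℝ^I`, `E Φ(cos α F(0) + sin α ∂_v F(0)) ≤ E Φ(F(0))`. -/
theorem result {d I : ℕ} {S : Type*} [MeasurableSpace S] (P : Measure S)
    (F : S → EuclideanSpace ℝ (Fin d) → Fin I → ℝ) (hF : IsJointStationaryWave P F)
    (v : EuclideanSpace ℝ (Fin d)) (hv : ‖v‖ = 1) (α : ℝ) (Φ : (Fin I → ℝ) → ℝ)
    (hΦ : ConvexOn ℝ Set.univ Φ) (he : ∀ x, Φ (-x) = Φ x) (_h0 : ∀ x, 0 ≤ Φ x) :
    ∫⁻ s, ENNReal.ofReal (Φ fun i => Real.cos α * F s 0 i + Real.sin α * der (F s) v i) ∂P ≤
      ∫⁻ s, ENNReal.ofReal (Φ (F s 0)) ∂P := by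
  have := hF.prob
  obtain ⟨Ψ, mΨ, v1, hQ, hτ, W⟩ := redV (P := P) hF.measurable hF.smooth hF.eigen
    hF.stationary hF.moment
  have h := szegoV hτ W hv α hΦ he
  have cc : Continuous Φ := continuousOn_univ.1 (hΦ.continuousOn isOpen_univ)
  have m0 : ∀ i, Measurable fun f : SpV d I => f.1 0 i := fun i => (W i).sf.meas 0
  have m1 : ∀ i, Measurable fun f : SpV d I => Dv v (fun y => f.1 y i) 0 := fun i =>
    (wdv hτ (W i) v).sf.meas 0
  have m2 : Measurable fun f : SpV d I => ENNReal.ofReal
      (Φ fun i => Real.cos α * f.1 0 i + Real.sin α * Dv v (fun y => f.1 y i) 0) :=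
    (cc.measurable.comp (measurable_pi_iff.2 fun i =>
      ((m0 i).const_mul _).add ((m1 i).const_mul _))).ennreal_ofReal
  have m3 : Measurable fun f : SpV d I => ENNReal.ofReal (Φ fun i => f.1 0 i) :=
    (cc.measurable.comp (measurable_pi_iff.2 fun i => m0 i)).ennreal_ofReal
  rw [lintegral_map m2 mΨ, lintegral_map m3 mΨ] at h
  simp only [v1] at h
  exact h

end

end Pool.Agent.Results.MP_a28cf0_nt.JointBernsteinSzego
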